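import Pool.Agent.H32.N6H.Targets

/-!
# Separable discriminants, change of the field and scalars (SDM)
-/

set_option autoImplicit false

open Polynomial Matrix NumberField IsDedekindDomain Pool.Agent.H32.QC Pool.Agent.H34.N6
  Pool.Agent.H32.N6H

namespace Pool.Agent.H13.N6H

theorem pen_up {F E : Type} [Field F] [Field E] (φ : F →+* E) {n : ℕ}
    (A B : Matrix (Fin n) (Fin n) F) :
    (pen (A.map φ) (B.map φ)).det = ((pen A B).det).map φ := by
  have h1 : pen (A.map φ) (B.map φ) = (Polynomial.mapRingHom φ).mapMatrix (pen A B) := by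
    unfold pen
    ext1 i j
    rw [RingHom.mapMatrix_apply, Matrix.map_apply, Matrix.sub_apply, Matrix.sub_apply,
      Matrix.smul_apply, Matrix.smul_apply, Matrix.map_apply, Matrix.map_apply,
      Matrix.map_apply, Matrix.map_apply, Matrix.map_apply, Matrix.map_apply, map_sub,
      smul_eq_mul, smul_eq_mul, map_mul, Polynomial.coe_mapRingHom, Polynomial.map_C,
      Polynomial.map_C, Polynomial.map_X]
  rw [h1, ← RingHom.map_det]
  rfl

theorem symm_map_iff {F E : Type} [Field F] [Field E] (φ : F →+* E) {n : ℕ}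
    (A : Matrix (Fin n) (Fin n) F) : (A.map φ).IsSymm ↔ A.IsSymm := by
  unfold Matrix.IsSymm
  rw [← Matrix.transpose_map]
  exact (Matrix.map_injective φ.injective).eq_iff

theorem pen_smul {F : Type} [Field F] {n : ℕ} (A B : Matrix (Fin n) (Fin n) F) (s : F) :
    (pen (s • A) (s • B)).det = C (s ^ n) * (pen A B).det := by
  have h1 : pen (s • A) (s • B) = (C s : F[X]) • pen A B := by
    unfold pen
    ext1 i j
    simp only [Matrix.sub_apply, Matrix.map_apply, Matrix.smul_apply, smul_eq_mul, C_mul]
    ring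
  rw [h1, Matrix.det_smul, Fintype.card_fin, C_pow]

theorem symm_smul_iff {F : Type} [Field F] {n : ℕ} (A : Matrix (Fin n) (Fin n) F) {s : F}
    (hs : s ≠ 0) : (s • A).IsSymm ↔ A.IsSymm := by
  unfold Matrix.IsSymm
  rw [Matrix.transpose_smul]
  exact (smul_right_injective _ hs).eq_iff

theorem pf_SDM : T_SDM := by
  intro F E _ _ φ n A B
  refine ⟨?_, ?_, ?_⟩
  · have h1 := pen_up φ A B
    constructor
    · intro h
      exact ⟨(symm_map_iff φ A).2 h.sA, (symm_map_iff φ B).2 h.sB, by
        rw [h1]; exact h.sep.map, by rw [h1, natDegree_map]; exact h.deg⟩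
    · intro h
      have h2 := h.sep
      have h3 := h.deg
      rw [h1] at h2 h3
      rw [natDegree_map] at h3
      exact ⟨(symm_map_iff φ A).1 h.sA, (symm_map_iff φ B).1 h.sB, (separable_map φ).1 h2, h3⟩
  · intro h h0
    have h1 : pen A B = (X : F[X]) • (-B).map C + A.map C := by
      unfold pen
      ext1 i j
      simp only [Matrix.sub_apply, Matrix.add_apply, Matrix.map_apply, Matrix.smul_apply,
        smul_eq_mul, Matrix.neg_apply, C_neg]
      ring
    have h2 := coeff_det_X_add_C_card (-B) A
    rw [← h1, Matrix.det_neg, h0, mul_zero, Fintype.card_fin] at h2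
    have h3 : (pen A B).det.leadingCoeff = 0 := by
      rw [leadingCoeff, h.deg, h2]
    exact h.sep.ne_zero (leadingCoeff_eq_zero.1 h3)
  · intro s hs
    have h1 := pen_smul A B s
    have hsn : s ^ n ≠ 0 := pow_ne_zero _ hs
    have hu : IsUnit (C (s ^ n) : F[X]) := (isUnit_C).2 (isUnit_iff_ne_zero.2 hsn)
    constructor
    · intro h
      have h2 := h.sep
      have h3 := h.deg
      rw [h1] at h2 h3
      rw [natDegree_C_mul hsn] at h3
      exact ⟨(symm_smul_iff A hs).1 h.sA, (symm_smul_iff B hs).1 h.sB, h2.of_mul_right, h3⟩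
    · intro h
      exact ⟨(symm_smul_iff A hs).2 h.sA, (symm_smul_iff B hs).2 h.sB, by
        rw [h1]; exact Separable.unit_mul hu h.sep, by
        rw [h1, natDegree_C_mul hsn]; exact h.deg⟩

end Pool.Agent.H13.N6H
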